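import Mathlib

set_option autoImplicit false
open Finset

namespace Pool.Agent.H.MP_eff1f1_co

section defs
variable {n : ℕ}

def clo (d : ℕ) (Γ : Set (Finset (Fin n))) : Set (Finset (Fin n)) :=
  {F | F.card ≤ d ∨ ∀ G ⊆ F, G.card = d + 1 → G ∈ Γ}

def Facet (Γ : Set (Finset (Fin n))) (F : Finset (Fin n)) : Prop :=
  F ∈ Γ ∧ ∀ G ∈ Γ, F ⊆ G → G = F

def Simp (d : ℕ) (Γ : Set (Finset (Fin n))) (E : Finset (Fin n)) : Prop :=
  E ∈ Γ ∧ E.card = d ∧ ∃! F, Facet Γ F ∧ E ⊆ F

def del (Γ : Set (Finset (Fin n))) (E : Finset (Fin n)) : Set (Finset (Fin n)) :=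
  {F ∈ Γ | ¬ E ⊂ F}

def Chordal (d : ℕ) (Γ : Set (Finset (Fin n))) : Prop :=
  Relation.ReflTransGen (fun Γ Γ' => ∃ E, Simp d Γ E ∧ ¬ Facet Γ E ∧ Γ' = del Γ E) Γ
    {F | F.card ≤ d}

def cx (d : ℕ) (t : Finset (Fin n) → Prop) : Set (Finset (Fin n)) :=
  {F | ∀ G ⊆ F, G.card = d + 1 → t G}

variable {d : ℕ} {t : Finset (Fin n) → Prop}

lemma cx_down {F G : Finset (Fin n)} (h : F ∈ cx d t) (h' : G ⊆ F) : G ∈ cx d t :=
  fun H a b => h H (a.trans h') b

lemma cx_top {G : Finset (Fin n)} (h : G.card = d + 1) : G ∈ cx d t ↔ t G :=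
  ⟨fun a => a G Subset.rfl h, fun a H b c => by
    rwa [eq_of_subset_of_card_le b (h.trans c.symm).le]⟩

lemma cx_small {G : Finset (Fin n)} (h : G.card ≤ d) : G ∈ cx d t := fun H a b => by
  have := card_le_card a
  omega

lemma cx_clo : cx d t = clo d (cx d t) := by
  ext F
  exact ⟨fun h => Or.inr fun G a _ => cx_down h a, fun h => h.elim cx_small
    fun h G a b => (cx_top b).1 (h G a b)⟩

lemma cx_del {E : Finset (Fin n)} (hE : E.card = d) :
    del (cx d t) E = cx d fun G => t G ∧ ¬ E ⊆ G := by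
  ext F
  constructor
  · rintro ⟨h1, h2⟩ G a b
    exact ⟨h1 G a b, fun c => h2 (Finset.ssubset_of_ssubset_of_subset
      (Finset.ssubset_iff_subset_ne.2 ⟨c, by rintro rfl; omega⟩) a)⟩
  · refine fun h => ⟨fun G a b => (h G a b).1, fun c => ?_⟩
    obtain ⟨v, a, b⟩ := exists_of_ssubset c
    exact (h (insert v E) (insert_subset a c.subset) (by rw [card_insert_of_notMem b, hE])).2
      (subset_insert _ _)

def nb (t : Finset (Fin n) → Prop) [DecidablePred t] (E : Finset (Fin n)) : Finset (Fin n) :=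
  univ.filter fun v => v ∈ E ∨ t (insert v E)

lemma sub_nb [DecidablePred t] {E G : Finset (Fin n)} (hE : E.card = d) (h : G ∈ cx d t)
    (h' : E ⊆ G) : G ⊆ nb t E := fun v hv => by
  refine mem_filter.2 ⟨mem_univ _, or_iff_not_imp_left.2 fun b => ?_⟩
  exact h _ (insert_subset hv h') (by rw [card_insert_of_notMem b, hE])

lemma simp_iff [DecidablePred t] {E : Finset (Fin n)} (hE : E.card = d) :
    Simp d (cx d t) E ↔ ∀ G ∈ (nb t E).powersetCard (d + 1), t G := by
  have h0 : E ⊆ nb t E := sub_nb hE (cx_small hE.le) Subset.rfl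
  have h1 : (∀ G ∈ (nb t E).powersetCard (d + 1), t G) ↔ nb t E ∈ cx d t := by
    simp only [mem_powersetCard, and_imp]
    rfl
  rw [h1]
  constructor
  · rintro ⟨-, -, F, ⟨a, b⟩, c⟩
    refine cx_down a.1 fun v hv => ?_
    by_cases h : v ∈ E
    · exact b h
    have h2 : insert v E ∈ cx d t := (cx_top (by rw [card_insert_of_notMem h, hE])).2
      ((mem_filter.1 hv).2.resolve_left h)
    obtain ⟨M, m1, m2⟩ := (Set.toFinite (cx d t)).exists_le_maximal h2
    rw [← c M ⟨⟨m2.1, fun G g1 g2 => Subset.antisymm (m2.2 g1 g2) g2⟩,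
      (subset_insert _ _).trans m1⟩]
    exact m1 (mem_insert_self _ _)
  · exact fun h => ⟨cx_small hE.le, hE, nb t E, ⟨⟨h, fun G a b =>
      Subset.antisymm (sub_nb hE a (h0.trans b)) b⟩, h0⟩,
      fun F a => (a.1.2 _ h (sub_nb hE a.1.1 a.2)).symm⟩

lemma facet_iff {E : Finset (Fin n)} (hE : E.card = d) :
    ¬ Facet (cx d t) E ↔ ∃ v, v ∉ E ∧ t (insert v E) := by
  constructor
  · intro h
    by_contra! hn
    refine h ⟨cx_small hE.le, fun G a b => Subset.antisymm (fun v hv => ?_) b⟩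
    by_contra c
    exact hn v c (a _ (insert_subset hv b) (by rw [card_insert_of_notMem c, hE]))
  · rintro ⟨v, a, b⟩ h
    have := h.2 _ ((cx_top (by rw [card_insert_of_notMem a, hE])).2 b) (subset_insert _ _)
    exact a (this ▸ mem_insert_self _ _)

end defs

def T0 : List ℕ := [15, 23, 39, 27, 43, 51, 29, 45, 53, 57, 30, 46, 54, 58, 60, 71, 75, 90, 101, 105, 108, 113, 114, 135, 153, 156, 165, 169, 170, 180, 195, 198, 202, 204, 209, 216, 226, 240]

def Q4 : List ℕ := [15, 23, 27, 29, 30, 39, 43, 45, 46, 51, 53, 54, 57, 58, 60, 71, 75, 77, 78, 83, 85, 86, 89, 90, 92, 99, 101, 102, 105, 106, 108, 113, 114, 116, 120, 135, 139, 141, 142, 147, 149, 150, 153, 154, 156, 163, 165, 166, 169, 170, 172, 177, 178, 180, 184, 195, 197, 198, 201, 202, 204, 209, 210, 212, 216, 225, 226, 228, 232, 240]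

def Q3 : List ℕ := [7, 11, 13, 14, 19, 21, 22, 25, 26, 28, 35, 37, 38, 41, 42, 44, 49, 50, 52, 56, 67, 69, 70, 73, 74, 76, 81, 82, 84, 88, 97, 98, 100, 104, 112, 131, 133, 134, 137, 138, 140, 145, 146, 148, 152, 161, 162, 164, 168, 176, 193, 194, 196, 200, 208, 224]

def code (G : Finset (Fin 8)) : ℕ := Nat.ofBits fun v : Fin 8 => decide (v ∈ G)

def fs (m : ℕ) : Finset (Fin 8) := univ.filter fun v => m.testBit v = true

def tet (T : List ℕ) (G : Finset (Fin 8)) : Prop := T.elem (code G) = true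

instance (L : List ℕ) : DecidablePred (tet L) := fun _ => by
  unfold tet; infer_instance

lemma code_bit (G : Finset (Fin 8)) (v : Fin 8) : (code G).testBit v = decide (v ∈ G) :=
  Nat.testBit_ofBits_lt _ _ v.2

lemma code_lt (G : Finset (Fin 8)) : code G < 2 ^ 8 := Nat.ofBits_lt_two_pow _

lemma bit_ext {a b : ℕ} (ha : a < 2 ^ 8) (hb : b < 2 ^ 8)
    (h : ∀ v : Fin 8, a.testBit v = b.testBit v) : a = b := by
  refine Nat.eq_of_testBit_eq fun i => ?_
  by_cases hi : i < 8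
  · exact h ⟨i, hi⟩
  · have := Nat.pow_le_pow_right (n := 2) (by norm_num) (not_lt.1 hi)
    rw [Nat.testBit_lt_two_pow (ha.trans_le this), Nat.testBit_lt_two_pow (hb.trans_le this)]

lemma code_fs {m : ℕ} (h : m < 2 ^ 8) : code (fs m) = m :=
  bit_ext (code_lt _) h fun v => by simp [code_bit, fs]

lemma fs_code (G : Finset (Fin 8)) : fs (code G) = G := by
  ext v
  simp [fs, code_bit]

lemma code_sub (E G : Finset (Fin 8)) : code E &&& code G = code E ↔ E ⊆ G := by
  constructor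
  · intro h v hv
    have := code_bit E v
    rw [← h, Nat.testBit_and, code_bit, code_bit] at this
    simpa [hv] using this
  · intro h
    refine bit_ext (Nat.and_lt_two_pow _ (code_lt _)) (code_lt _) fun v => ?_
    simpa [Nat.testBit_and, code_bit] using @h v

lemma code_ins (E : Finset (Fin 8)) (v : Fin 8) : code (insert v E) = code E ||| 2 ^ v.1 :=
  bit_ext (code_lt _) (Nat.or_lt_two_pow (code_lt _) (Nat.pow_lt_pow_right (by norm_num) v.2))
    fun w => by
      simp [Nat.testBit_or, code_bit, Nat.testBit_two_pow, Fin.ext_iff, eq_comm, Bool.or_comm]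

lemma q1 : ∀ m < 2 ^ 8, ((fs m).card = 4 ↔ m ∈ Q4) ∧ ((fs m).card = 3 ↔ m ∈ Q3) := by
  decide +kernel

lemma q2 : ∀ m ∈ Q4, m < 2 ^ 8 := by decide +kernel

lemma q3 : ∀ m ∈ Q3, m < 2 ^ 8 := by decide +kernel

def cut (L : List ℕ) (e : ℕ) : List ℕ := L.filter fun m => !(e &&& m == e)

def ok (L : List ℕ) (e : ℕ) : Bool :=
  ([0, 1, 2, 3, 4, 5, 6, 7].any fun v => !e.testBit v && L.elem (e ||| 2 ^ v)) &&
    Q4.all fun m => L.elem m ||
      [0, 1, 2, 3, 4, 5, 6, 7].any fun v => m.testBit v && !e.testBit v && !L.elem (e ||| 2 ^ v)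

lemma any8 (p : ℕ → Bool) : [0, 1, 2, 3, 4, 5, 6, 7].any p = true ↔ ∃ v : Fin 8, p v = true := by
  simp [Fin.exists_fin_succ]

lemma ok_iff (L : List ℕ) (E : Finset (Fin 8)) : ok L (code E) = true ↔
    (∃ v, v ∉ E ∧ tet L (insert v E)) ∧ ∀ G ∈ (nb (tet L) E).powersetCard 4, tet L G := by
  rw [ok, Bool.and_eq_true, any8, List.all_eq_true]
  refine and_congr (exists_congr fun v => by simp [code_bit, tet, code_ins]) ?_
  have key : ∀ G : Finset (Fin 8), (L.elem (code G) || [0, 1, 2, 3, 4, 5, 6, 7].any fun v =>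
      (code G).testBit v && !(code E).testBit v && !L.elem (code E ||| 2 ^ v)) = true ↔
      (G ⊆ nb (tet L) E → tet L G) := by
    intro G
    rw [Bool.or_eq_true, any8, imp_iff_or_not, Finset.not_subset]
    refine or_congr Iff.rfl (exists_congr fun v => ?_)
    simp [code_bit, tet, code_ins, nb, and_assoc]
  constructor
  · intro h G hG
    obtain ⟨a, b⟩ := mem_powersetCard.1 hG
    exact (key G).1 (h _ ((q1 _ (code_lt G)).1.1 (by rwa [fs_code]))) a
  · intro h m hm
    have := (key (fs m)).2 fun a => h _ (mem_powersetCard.2 ⟨a, (q1 _ (q2 m hm)).1.2 hm⟩)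
    rwa [code_fs (q2 m hm)] at this

def run : List ℕ → List ℕ → Bool
  | [], L => L == []
  | e :: R, L => Q3.elem e && ok L e && run R (cut L e)

lemma tet_del (L : List ℕ) {E : Finset (Fin 8)} (hE : E.card = 3) :
    del (cx 3 (tet L)) E = cx 3 (tet (cut L (code E))) := by
  rw [cx_del hE]
  congr 1
  funext G
  simp [tet, cut, ← code_sub]

lemma run_ok : ∀ R L, run R L = true → Chordal 3 (cx 3 (tet L))
  | [], L, h => by
    have h : L = [] := by simpa [run] using h
    have : cx 3 (tet L) = {F | F.card ≤ 3} := by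
      ext F
      refine ⟨fun a => ?_, cx_small⟩
      by_contra b
      obtain ⟨G, c, e⟩ := exists_subset_card_eq (s := F) (n := 4) (Nat.succ_le_of_lt (not_le.1 b))
      simpa [tet, h] using a G c e
    rw [this]
    exact Relation.ReflTransGen.refl
  | e :: R, L, h => by
    simp only [run, Bool.and_eq_true, List.elem_iff] at h
    obtain ⟨⟨a, b⟩, c⟩ := h
    have a' := (q1 _ (q3 e a)).2.2 a
    rw [← code_fs (q3 e a)] at b c
    exact Relation.ReflTransGen.head ⟨fs e, (simp_iff a').2 ((ok_iff _ _).1 b).2,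
      (facet_iff a').2 ((ok_iff _ _).1 b).1, (tet_del L a').symm⟩ (run_ok R _ c)

lemma c1 : run [13, 21, 19, 22, 14, 38, 35, 11, 73, 104, 76, 140, 28, 100, 52, 196, 97, 70, 49, 81, 7, 145, 137, 164, 67, 152, 176, 112, 224, 168, 42, 88, 74] T0 = true := by decide +kernel

lemma c2 : ok T0 (code {3, 4, 5}) = true := by decide +kernel

lemma c3 : ∀ e ∈ Q3, ok (cut T0 (code {3, 4, 5})) e = false := by decide +kernel

lemma c4 : tet (cut T0 (code {3, 4, 5})) {0, 1, 2, 3} := by decide +kernel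

theorem main : ∃ Γ : Set (Finset (Fin 8)), (∀ F ∈ Γ, ∀ G ⊆ F, G ∈ Γ) ∧ Γ = clo 3 Γ ∧
    Chordal 3 Γ ∧ ∃ E, Simp 3 Γ E ∧ ¬ Chordal 3 (del Γ E) := by
  have hE : ({3, 4, 5} : Finset (Fin 8)).card = 3 := by decide
  refine ⟨cx 3 (tet T0), fun F a G b => cx_down a b, cx_clo, run_ok _ _ c1, {3, 4, 5},
    (simp_iff hE).2 ((ok_iff _ _).1 c2).2, fun h => ?_⟩
  rw [tet_del _ hE] at h
  rcases Relation.ReflTransGen.cases_head h with h | ⟨_, ⟨E, a, b, -⟩, -⟩
  · have := h.le ((cx_top (by decide)).2 c4)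
    exact absurd this (by decide)
  · have := c3 _ ((q1 _ (code_lt E)).2.1 (by rw [fs_code]; exact a.2.1))
    rw [(ok_iff _ _).2 ⟨(facet_iff a.2.1).1 b, (simp_iff a.2.1).1 a⟩] at this
    exact absurd this (by decide)

end Pool.Agent.H.MP_eff1f1_co
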